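import Pool.Agent.Helper88.QT.St4

/-!
# Project QT (MP_d112a4_gt): module SMR
-/

set_option autoImplicit false

open MeasureTheory Matrix Set Topology Filter
open scoped ENNReal ComplexConjugate

namespace Pool.Agent.Helper27.QT

open Pool.Agent.Helper88.QT Pool.Agent.Helper85.QT
open Pool.Agent.Helper86.QA hiding Mat SL
open Pool.Agent.Helper35.PM (hs len classes num ent tl IsQF Mat SL)

theorem hSMR (hHS1 : Pool.Agent.Helper35.PM.St_HS1) (hHS2 : Pool.Agent.Helper35.PM.St_HS2)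
    (hSUM : Pool.Agent.Helper86.QA.StSUM) (hENL : Pool.Agent.Helper88.QT.StENL) :
    Pool.Agent.Helper88.QT.StSMR := by
  intro Γ _ ρ r C hQ hr
  obtain ⟨h1, h2, h3, -⟩ := hHS1
  have key : ∀ s : ℝ, 0 < s → ent ρ < s → Summable (fun γ : Γ => hs (r γ : Mat) ^ (-s)) := by
    intro s hs0 hent
    have hsum := hSUM Γ ρ ⟨hQ.discrete, hQ.cocompact⟩ hQ.jordan s hs0 hent
    have hC : 0 < hs (C : Mat) := by linarith [h3 C]
    refine Summable.of_nonneg_of_le (fun γ => ?_) (fun γ => ?_)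
      (hsum.mul_left ((hs (C : Mat) ^ 2) ^ s))
    · have := h3 (r γ)
      exact Real.rpow_nonneg (by linarith) _
    · have hρ : 0 < hs (ρ γ : Mat) := by linarith [h3 (ρ γ)]
      have hrr : 0 < hs (r γ : Mat) := by linarith [h3 (r γ)]
      have e0 : ρ γ = C⁻¹ * (r γ * C) := by
        rw [hr γ]
        group
      have e1 : (ρ γ : Mat) = ((C⁻¹ : SL) : Mat) * ((r γ : Mat) * (C : Mat)) := by
        conv_lhs => rw [e0]
        rfl
      have e2 : hs (ρ γ : Mat) ≤ hs (C : Mat) ^ 2 * hs (r γ : Mat) := by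
        calc hs (ρ γ : Mat) = hs (((C⁻¹ : SL) : Mat) * ((r γ : Mat) * (C : Mat))) :=
              congrArg hs e1
          _ ≤ hs ((C⁻¹ : SL) : Mat) * hs ((r γ : Mat) * (C : Mat)) := h1 _ _
          _ ≤ hs ((C⁻¹ : SL) : Mat) * (hs (r γ : Mat) * hs (C : Mat)) := by
              apply mul_le_mul_of_nonneg_left (h1 _ _)
              rw [h2 C]
              exact hC.le
          _ = hs (C : Mat) ^ 2 * hs (r γ : Mat) := by
              rw [h2 C]
              ring
      have e3 : hs (ρ γ : Mat) ^ s ≤ (hs (C : Mat) ^ 2) ^ s * hs (r γ : Mat) ^ s := by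
        rw [← Real.mul_rpow (by positivity) hrr.le]
        exact Real.rpow_le_rpow hρ.le e2 hs0.le
      have p1 : 0 < hs (ρ γ : Mat) ^ s := Real.rpow_pos_of_pos hρ _
      have p2 : 0 < hs (r γ : Mat) ^ s := Real.rpow_pos_of_pos hrr _
      rw [Real.rpow_neg hrr.le, Real.rpow_neg hρ.le, ← div_eq_mul_inv, inv_eq_one_div,
        div_le_div_iff₀ p2 p1]
      linarith
  refine ⟨fun γ => ?_, key, fun A B hKD => ?_⟩
  · rw [hr γ]
    exact hHS2.2.2.2.1 _ _
  · by_contra hcon
    exact hENL Γ r A B hKD (key 1 one_pos (not_le.1 hcon))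

end Pool.Agent.Helper27.QT
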